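import Pool.Agent.H265Z.Gon.Curve

/-!
MP_83f7cc_ag: the answer is no.  Over an algebraically closed field of characteristic two, the
surface `X : x_0 y_0^2 + x_1 y_1^2 + x_2 y_2^2 = 0 = x_0^2 y_0 + x_1^2 y_1 + x_2^2 y_2` in
`P^2 x P^2` is smooth, integral and of dimension two, the first projection has the minimal
degree `2`, and the preimage of a general line is an integral curve of gonality `1`.
-/

open MvPolynomial Pool.Agent.H265Z.Gon

theorem Pool.Agent.Results.MP_83f7cc_ag.ACharTwo.result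
    (k : Type) [Field k] [IsAlgClosed k] [CharP k 2] :
    (∀ F ∈ eqns k, IsBihom F) ∧ JacobianSmooth 2 (cone (eqns k)) ∧
      IntegralDimMinDegree (cone (eqns k)) 2 2 ∧ ProjDegree (cone (eqns k)) 2 ∧
      ∃ Q : MvPolynomial (Fin 3) k, Q ≠ 0 ∧ (∃ m, Q.IsHomogeneous m) ∧
        ∀ c : Fin 3 → k, eval c Q ≠ 0 →
          IntegralDimMinDegree (cone (insert (lineForm c) (eqns k))) 1 1 := by
  obtain ⟨hp, h1, φ, h2, h3, h4⟩ := surf_main (k := k)
  refine ⟨?_, smooth_surf, ⟨_, _, _, _, @isGeneric k _ _ hp, h1, h4⟩,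
    ⟨_, _, _, _, @isGeneric k _ _ hp, _, h2, φ, fun _ => rfl, h3⟩, Q k, Q_ne, Q_hom, fun c hc => ?_⟩
  · rintro F (rfl | rfl)
    · refine ⟨(1, 2), IsWeightedHomogeneous.sum _ _ _ fun i _ => ?_⟩
      exact (isWeightedHomogeneous_X k _ (Sum.inl i : V)).mul
        ((isWeightedHomogeneous_X k _ (Sum.inr i : V)).pow 2)
    · refine ⟨(2, 1), IsWeightedHomogeneous.sum _ _ _ fun i _ => ?_⟩
      exact ((isWeightedHomogeneous_X k _ (Sum.inl i : V)).pow 2).mul
        (isWeightedHomogeneous_X k _ (Sum.inr i : V))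
  · obtain ⟨hq, h5, h6⟩ := curve_main hc
    exact ⟨_, _, _, _, @isGeneric k _ _ hq, h5.trans Nat.cast_one.symm, h6⟩
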